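import Mathlib

/-!
# Dense digraphs without two edge-disjoint Hamiltonian cycles

We show that the Ghouila-Houri condition `δ⁰(D) ≥ n/2` does not force two edge-disjoint directed
Hamiltonian cycles: there are counterexamples on `4` and on `6` vertices.
-/

namespace Pool.Agent.Results.MP_fa7ade_co.NoTwoDisjointHamCycles

/-- The minimum semidegree of the digraph `D` on `Fin n` is at least `n / 2`: every out-degree and
every in-degree `d` satisfies `n ≤ 2 * d`. -/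
def Dense {n : ℕ} (D : Fin n → Fin n → Prop) : Prop :=
  (∀ v, n ≤ 2 * Nat.card {w // D v w}) ∧ (∀ v, n ≤ 2 * Nat.card {w // D w v})

/-- `c` lists the vertices of a directed Hamiltonian cycle
`c 0 → c 1 → ⋯ → c (n - 1) → c 0` of `D` (the addition in `Fin n` is cyclic). -/
def IsHamCycle {n : ℕ} [NeZero n] (D : Fin n → Fin n → Prop) (c : Fin n → Fin n) : Prop :=
  Function.Bijective c ∧ ∀ i, D (c i) (c (i + 1))

/-- The two cyclic sequences have no common arc. -/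
def EdgeDisjoint {n : ℕ} [NeZero n] (c c' : Fin n → Fin n) : Prop :=
  ∀ i j, ¬ (c i = c' j ∧ c (i + 1) = c' (j + 1))

/-- The digraph on `4` vertices with arcs `i → i + 2` and `i → i - 1`. -/
def D4 (u v : Fin 4) : Prop := v = u + 2 ∨ v = u + 3

instance : DecidableRel D4 := fun u v => by unfold D4; infer_instance

/-- Out-neighbours in the digraph on `6` vertices. -/
def out6 : Fin 6 → List (Fin 6) := ![[1, 2, 4, 5], [0, 2, 4], [0, 1, 3], [1, 4, 5], [0, 3, 5],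
  [2, 3, 4]]

/-- The digraph on `6` vertices. -/
def D6 (u v : Fin 6) : Prop := v ∈ out6 u

instance : DecidableRel D6 := fun u v => by unfold D6; infer_instance

theorem dense4 : Dense D4 := by
  constructor <;> intro v <;> rw [Nat.card_eq_fintype_card] <;> revert v <;> decide

theorem dense6 : Dense D6 := by
  constructor <;> intro v <;> rw [Nat.card_eq_fintype_card] <;> revert v <;> decide

section

variable {n : ℕ} [NeZero n] {D : Fin n → Fin n → Prop}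

/-- The successor function of a Hamiltonian cycle: it follows arcs of `D`, and its `k`-th iterate
moves position `i` to position `i + k`. -/
theorem exists_succ {c : Fin n → Fin n} (h : IsHamCycle D c) :
    ∃ s : Fin n → Fin n, (∀ u, D u (s u)) ∧ (∀ i, s (c i) = c (i + 1)) := by
  let e := Equiv.ofBijective c h.1
  have he : ∀ u, c (e.symm u) = u := fun u => e.apply_symm_apply u
  have he' : ∀ i, e.symm (c i) = i := fun i => e.symm_apply_apply i
  refine ⟨fun u => c (e.symm u + 1), fun u => ?_, fun i => ?_⟩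
  · have := h.2 (e.symm u)
    rwa [he] at this
  · simp only [he']

end

/-- The orbit of `0` under `t` returns to `0` at step `4` and not before. -/
def Good4 (t : Fin 4 → Fin 4) : Prop :=
  t 0 ≠ 0 ∧ t (t 0) ≠ 0 ∧ t (t (t 0)) ≠ 0 ∧ t (t (t (t 0))) = 0

instance : DecidablePred Good4 := fun t => by unfold Good4; infer_instance

theorem key4 : ∀ a0 : Fin 4, D4 0 a0 → ∀ a1, D4 1 a1 → ∀ a2, D4 2 a2 → ∀ a3, D4 3 a3 →
    Good4 ![a0, a1, a2, a3] →
    ∀ b0 : Fin 4, D4 0 b0 → b0 ≠ a0 → ∀ b1, D4 1 b1 → b1 ≠ a1 → ∀ b2, D4 2 b2 → b2 ≠ a2 →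
    ∀ b3, D4 3 b3 → b3 ≠ a3 → ¬ Good4 ![b0, b1, b2, b3] := by
  decide +kernel

theorem f4a : ∀ i : Fin 4, i + 1 ≠ i := by decide

theorem f4b : ∀ i : Fin 4, i + 1 + 1 ≠ i := by decide

theorem f4c : ∀ i : Fin 4, i + 1 + 1 + 1 ≠ i := by decide

theorem f4d : ∀ i : Fin 4, i + 1 + 1 + 1 + 1 = i := by decide

theorem good_of_ham {c s : Fin 4 → Fin 4} (h : IsHamCycle D4 c)
    (hs : ∀ i, s (c i) = c (i + 1)) : Good4 s := by
  obtain ⟨i, hi⟩ := h.1.2 0
  unfold Good4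
  rw [← hi]
  simp only [hs]
  exact ⟨fun heq => f4a i (h.1.1 heq), fun heq => f4b i (h.1.1 heq),
    fun heq => f4c i (h.1.1 heq), by rw [f4d]⟩

theorem no4 (c c' : Fin 4 → Fin 4) (h : IsHamCycle D4 c) (h' : IsHamCycle D4 c') :
    ¬ EdgeDisjoint c c' := by
  intro hd
  obtain ⟨s, hs1, hs2⟩ := exists_succ h
  obtain ⟨s', hs1', hs2'⟩ := exists_succ h'
  have hne : ∀ u, s' u ≠ s u := by
    intro u heq
    obtain ⟨i, rfl⟩ := h.1.2 u
    obtain ⟨j, hj⟩ := h'.1.2 (c i)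
    refine hd i j ⟨hj.symm, ?_⟩
    rw [← hs2, ← hs2', hj, heq]
  have hfun : ∀ t : Fin 4 → Fin 4, (![t 0, t 1, t 2, t 3] : Fin 4 → Fin 4) = t := by
    intro t; funext i; fin_cases i <;> rfl
  have := key4 (s 0) (hs1 0) (s 1) (hs1 1) (s 2) (hs1 2) (s 3) (hs1 3)
    (by rw [hfun]; exact good_of_ham h hs2)
    (s' 0) (hs1' 0) (hne 0) (s' 1) (hs1' 1) (hne 1) (s' 2) (hs1' 2) (hne 2)
    (s' 3) (hs1' 3) (hne 3)
  rw [hfun] at this
  exact this (good_of_ham h' hs2')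

/-- The orbit of `0` under `t` returns to `0` at step `6` and not before. -/
def Long (t : Fin 6 → Fin 6) : Prop :=
  t 0 ≠ 0 ∧ t (t 0) ≠ 0 ∧ t (t (t 0)) ≠ 0 ∧ t (t (t (t 0))) ≠ 0 ∧ t (t (t (t (t 0)))) ≠ 0 ∧
    t (t (t (t (t (t 0))))) = 0

instance : DecidablePred Long := fun t => by unfold Long; infer_instance

theorem key6 : ∀ a0 : Fin 6, D6 0 a0 → ∀ a1, D6 1 a1 → ∀ a2, D6 2 a2 → ∀ a3, D6 3 a3 →
    ∀ a4, D6 4 a4 → ∀ a5, D6 5 a5 → Long ![a0, a1, a2, a3, a4, a5] →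
    ∀ b0 : Fin 6, D6 0 b0 → b0 ≠ a0 → ∀ b1, D6 1 b1 → b1 ≠ a1 → ∀ b2, D6 2 b2 → b2 ≠ a2 →
    ∀ b3, D6 3 b3 → b3 ≠ a3 → ∀ b4, D6 4 b4 → b4 ≠ a4 → ∀ b5, D6 5 b5 → b5 ≠ a5 →
    ¬ Long ![b0, b1, b2, b3, b4, b5] := by
  decide +kernel

theorem f6a : ∀ i : Fin 6, i + 1 ≠ i := by decide

theorem f6b : ∀ i : Fin 6, i + 1 + 1 ≠ i := by decide

theorem f6c : ∀ i : Fin 6, i + 1 + 1 + 1 ≠ i := by decide

theorem f6d : ∀ i : Fin 6, i + 1 + 1 + 1 + 1 ≠ i := by decide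

theorem f6e : ∀ i : Fin 6, i + 1 + 1 + 1 + 1 + 1 ≠ i := by decide

theorem f6f : ∀ i : Fin 6, i + 1 + 1 + 1 + 1 + 1 + 1 = i := by decide

theorem long_of_ham {c s : Fin 6 → Fin 6} (h : IsHamCycle D6 c)
    (hs : ∀ i, s (c i) = c (i + 1)) : Long s := by
  obtain ⟨i, hi⟩ := h.1.2 0
  unfold Long
  rw [← hi]
  simp only [hs]
  exact ⟨fun heq => f6a i (h.1.1 heq), fun heq => f6b i (h.1.1 heq),
    fun heq => f6c i (h.1.1 heq), fun heq => f6d i (h.1.1 heq), fun heq => f6e i (h.1.1 heq),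
    by rw [f6f]⟩

theorem no6 (c c' : Fin 6 → Fin 6) (h : IsHamCycle D6 c) (h' : IsHamCycle D6 c') :
    ¬ EdgeDisjoint c c' := by
  intro hd
  obtain ⟨s, hs1, hs2⟩ := exists_succ h
  obtain ⟨s', hs1', hs2'⟩ := exists_succ h'
  have hne : ∀ u, s' u ≠ s u := by
    intro u heq
    obtain ⟨i, rfl⟩ := h.1.2 u
    obtain ⟨j, hj⟩ := h'.1.2 (c i)
    refine hd i j ⟨hj.symm, ?_⟩
    rw [← hs2, ← hs2', hj, heq]
  have hfun : ∀ t : Fin 6 → Fin 6, (![t 0, t 1, t 2, t 3, t 4, t 5] : Fin 6 → Fin 6) = t := by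
    intro t; funext i; fin_cases i <;> rfl
  have := key6 (s 0) (hs1 0) (s 1) (hs1 1) (s 2) (hs1 2) (s 3) (hs1 3) (s 4) (hs1 4) (s 5)
    (hs1 5) (by rw [hfun]; exact long_of_ham h hs2)
    (s' 0) (hs1' 0) (hne 0) (s' 1) (hs1' 1) (hne 1) (s' 2) (hs1' 2) (hne 2)
    (s' 3) (hs1' 3) (hne 3) (s' 4) (hs1' 4) (hne 4) (s' 5) (hs1' 5) (hne 5)
  rw [hfun] at this
  exact this (long_of_ham h' hs2')

/-- **Main theorem.**  It is not true that every loopless digraph on `n ≥ 3` vertices with minimum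
semidegree at least `n / 2` has two edge-disjoint directed Hamiltonian cycles; counterexamples
exist for `n = 4` and for `n = 6`. -/
theorem result :
    (¬ ∀ (n : ℕ) [NeZero n], 3 ≤ n → ∀ D : Fin n → Fin n → Prop, (∀ v, ¬ D v v) → Dense D →
      ∃ c c' : Fin n → Fin n, IsHamCycle D c ∧ IsHamCycle D c' ∧ EdgeDisjoint c c') ∧
    (∃ D : Fin 4 → Fin 4 → Prop, (∀ v, ¬ D v v) ∧ Dense D ∧
      ∀ c c' : Fin 4 → Fin 4, IsHamCycle D c → IsHamCycle D c' → ¬ EdgeDisjoint c c') ∧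
    (∃ D : Fin 6 → Fin 6 → Prop, (∀ v, ¬ D v v) ∧ Dense D ∧
      ∀ c c' : Fin 6 → Fin 6, IsHamCycle D c → IsHamCycle D c' → ¬ EdgeDisjoint c c') := by
  refine ⟨fun h => ?_, ⟨D4, by decide, dense4, no4⟩, ⟨D6, by decide, dense6, no6⟩⟩
  obtain ⟨c, c', h1, h2, h3⟩ := h 4 (by norm_num) D4 (by decide) dense4
  exact no4 c c' h1 h2 h3

end Pool.Agent.Results.MP_fa7ade_co.NoTwoDisjointHamCycles
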